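import Pool.Agent.Q211.AM.Rt

/-!
# A set that satisfies Ramsey's theorem for pairs but not the canonical Ramsey theorem

The model is (a version for ZF of) the basic Fraenkel model: the atoms are the elements of `ℕ`
(every atom is represented by an infinite set of mutually generic Cohen reals), the group consists
of all permutations, the supports are finite. Let `A` be the set of the atoms. A colouring of the
pairs of atoms with a finite number of colours and with support `E` is constant on the pairs that
are disjoint from `E`, so it has an infinite homogeneous set. A linear order on an infinite set of
atoms with support `E` would be preserved by the transposition of two atoms outside `E`, which is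
impossible; so no infinite set of atoms has a linear order in the model, and the canonical Ramsey
theorem fails for `A`.
-/

set_option autoImplicit false

namespace Pool.Agent.Results.MP_5f5b92_lc.RamseyNotCanonical

open Pool.Agent.W868 Pool.Agent.W868.PName Pool.Agent.Q211.SY Pool.Agent.Q211.FS
open Pool.Agent.Q211.TP Pool.Agent.Q211.AM

/-- There is a countable transitive model of ZF with a set `X` such that Ramsey's theorem for
pairs and `n` colours holds for `X` for every `n ≥ 2`, and the canonical Ramsey theorem for pairs
fails for `X`. So the set of all `n` for which the inclusion can be strict is the set of all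
`n ≥ 2`. -/
theorem result : ∃ M : Set ZFSet.{0}, M.Countable ∧ IsZF M ∧
    ∃ X ∈ M, (∀ n, 2 ≤ n → RT2 M (nat n) X) ∧ ¬ CRT2 M X := by
  obtain ⟨M, at', st, fam, h⟩ := exists_fr
  exact ⟨M, h.cnt, h.zf, st Set.univ, h.stM _ (Or.inr (by simp)), fun n _ => FrM.rt2 h,
    FrM.not_crt h⟩

end Pool.Agent.Results.MP_5f5b92_lc.RamseyNotCanonical
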